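import Pool.Agent.ZPK.StmtsL
import Pool.Agent.Helper27_ZPK.LGB

/-!
GLB (squad ZPK): `p ^ k Log (1 + r (w - 1))` to first order.
-/

set_option autoImplicit false

namespace Pool.Agent.ZPK.H41

open Polynomial Pool.Agent.ZPT Pool.Agent.ZP3

section

variable {p : ℕ} {K : Type} [NormedField K] [CharZero K] [IsUltrametricDist K]

theorem nadd {a b : K} {r : ℝ} (ha : ‖a‖ ≤ r) (hb : ‖b‖ ≤ r) : ‖a + b‖ ≤ r :=
  (IsUltrametricDist.norm_add_le_max _ _).trans (max_le ha hb)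

theorem nsub' {a b : K} {r : ℝ} (ha : ‖a‖ ≤ r) (hb : ‖b‖ ≤ r) : ‖a - b‖ ≤ r := by
  rw [sub_eq_add_neg]
  exact nadd ha (by rw [norm_neg]; exact hb)

theorem choose_norm (hp : p.Prime) (hE : Ext p K) {i : ℕ} (h0 : i ≠ 0) (hi : i < p) :
    ‖((p.choose i : ℕ) : K)‖ ≤ (p : ℝ)⁻¹ := by
  obtain ⟨c, hc⟩ := hp.dvd_choose_self (k := i) h0 hi
  rw [hc]
  push_cast
  rw [norm_mul, ZPK.H27.nrm_p hp K hE]
  exact mul_le_of_le_one_right (by positivity) (ZPK.H27.nrm_le_one hp K hE c)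

/-- Frobenius modulo `p`. -/
theorem frob (hp : p.Prime) (hE : Ext p K) {a b : K} (ha : ‖a‖ ≤ 1) (hb : ‖b‖ ≤ 1) :
    ‖(a + b) ^ p - a ^ p - b ^ p‖ ≤ (p : ℝ)⁻¹ * (‖a‖ * ‖b‖) := by
  have h1 : (a + b) ^ p - a ^ p - b ^ p =
      ∑ i ∈ Finset.Ico 1 p, a ^ i * b ^ (p - i) * ((p.choose i : ℕ) : K) := by
    rw [add_pow, Finset.sum_range_succ,
      ← Finset.sum_range_add_sum_Ico _ (show 1 ≤ p from hp.one_lt.le)]
    simp only [Finset.sum_range_one, pow_zero, one_mul, Nat.sub_zero, Nat.choose_zero_right,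
      Nat.cast_one, mul_one, Nat.sub_self, Nat.choose_self]
    ring
  rw [h1]
  refine IsUltrametricDist.norm_sum_le_of_forall_le_of_nonneg (by positivity) ?_
  intro i hi
  rw [Finset.mem_Ico] at hi
  rw [norm_mul, norm_mul, norm_pow, norm_pow, mul_comm]
  refine mul_le_mul (choose_norm hp hE (by omega) hi.2) ?_ (by positivity) (by positivity)
  exact mul_le_mul (pow_le_of_le_one (norm_nonneg _) ha (by omega))
    (pow_le_of_le_one (norm_nonneg _) hb (by omega)) (by positivity) (norm_nonneg _)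

theorem frob2 (hp : p.Prime) (hE : Ext p K) {y : K} (hy : ‖y‖ ≤ 1) :
    ‖(1 + y) ^ p - 1 - y ^ p - (p : K) * y‖ ≤ (p : ℝ)⁻¹ * ‖y‖ ^ 2 := by
  have h1 : (1 + y) ^ p - 1 - y ^ p - (p : K) * y =
      ∑ i ∈ Finset.Ico 2 p, y ^ i * 1 ^ (p - i) * ((p.choose i : ℕ) : K) := by
    rw [add_comm 1 y, add_pow, Finset.sum_range_succ,
      ← Finset.sum_range_add_sum_Ico _ (show 2 ≤ p from hp.two_le), Finset.sum_range_succ,
      Finset.sum_range_one]
    simp only [pow_zero, one_mul, Nat.choose_zero_right, one_pow, pow_one,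
      Nat.cast_one, mul_one, Nat.choose_self, Nat.choose_one_right]
    ring
  rw [h1]
  refine IsUltrametricDist.norm_sum_le_of_forall_le_of_nonneg (by positivity) ?_
  intro i hi
  rw [Finset.mem_Ico] at hi
  rw [one_pow, mul_one, norm_mul, norm_pow, mul_comm]
  exact mul_le_mul (choose_norm hp hE (by omega) hi.2)
    (pow_le_pow_of_le_one (norm_nonneg _) hy hi.1) (by positivity) (by positivity)

/-- `(1 + r P_0) ^ (p ^ j) = 1 + r ^ (p ^ j) P_j + O(1/p)` -/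
theorem iter (hp : p.Prime) (hE : Ext p K) {w r : K} (hw : ‖w - 1‖ ≤ 1) (hr : ‖r‖ ≤ 1) (j : ℕ) :
    ‖(1 + r * (w - 1)) ^ (p ^ j) - 1 - r ^ (p ^ j) * (w ^ (p ^ j) - 1)‖ ≤ (p : ℝ)⁻¹ ∧
      ‖w ^ (p ^ j) - 1‖ ≤ 1 := by
  have hp1 : (1 : ℝ) ≤ p := by exact_mod_cast hp.one_lt.le
  have hi : (p : ℝ)⁻¹ ≤ 1 := inv_le_one_of_one_le₀ hp1
  have hi0 : 0 ≤ (p : ℝ)⁻¹ := by positivity
  induction j with
  | zero =>
    rw [pow_zero, pow_one, pow_one, pow_one]
    refine ⟨?_, hw⟩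
    have : 1 + r * (w - 1) - 1 - r * (w - 1) = 0 := by ring
    rw [this, norm_zero]
    exact hi0
  | succ j ih =>
    obtain ⟨ih1, ih2⟩ := ih
    obtain ⟨Q, hQ⟩ : ∃ Q : K, Q = w ^ (p ^ j) - 1 := ⟨_, rfl⟩
    obtain ⟨A, hA⟩ : ∃ A : K, A = r ^ (p ^ j) * Q := ⟨_, rfl⟩
    obtain ⟨δ, hδ⟩ : ∃ δ : K, δ = (1 + r * (w - 1)) ^ (p ^ j) - 1 - A := ⟨_, rfl⟩
    rw [← hQ] at ih1 ih2
    rw [← hA, ← hδ] at ih1
    have hA1 : ‖A‖ ≤ 1 := by
      rw [hA, norm_mul, norm_pow]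
      exact mul_le_one₀ (pow_le_one₀ (norm_nonneg _) hr) (norm_nonneg _) ih2
    have hδ1 : ‖δ‖ ≤ 1 := ih1.trans hi
    have hAδ : ‖A + δ‖ ≤ 1 := nadd hA1 hδ1
    have e1 : (1 + r * (w - 1)) ^ (p ^ (j + 1)) = (1 + (A + δ)) ^ p := by
      rw [pow_succ, pow_mul, hδ]
      congr 1
      ring
    have e2 : w ^ (p ^ (j + 1)) = (1 + Q) ^ p := by
      rw [pow_succ, pow_mul, hQ]
      congr 1
      ring
    have e3 : r ^ (p ^ (j + 1)) * Q ^ p = A ^ p := by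
      rw [hA, mul_pow, ← pow_mul, ← pow_succ]
    have f1 := frob hp hE (a := 1) (b := A + δ) (by rw [norm_one]) hAδ
    have f2 := frob hp hE (a := A) (b := δ) hA1 hδ1
    have f3 := frob hp hE (a := 1) (b := Q) (by rw [norm_one]) ih2
    have g : ∀ {x y : ℝ}, 0 ≤ x → x ≤ 1 → 0 ≤ y → y ≤ 1 → (p : ℝ)⁻¹ * (x * y) ≤ (p : ℝ)⁻¹ := by
      intro x y hx hx1 hy hy1
      exact mul_le_of_le_one_right hi0 (mul_le_one₀ hx1 hy hy1)
    have f1' := f1.trans (g (norm_nonneg _) (by rw [norm_one]) (norm_nonneg _) hAδ)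
    have f2' := f2.trans (g (norm_nonneg _) hA1 (norm_nonneg _) hδ1)
    have f3' := f3.trans (g (norm_nonneg _) (by rw [norm_one]) (norm_nonneg _) ih2)
    have f4 : ‖δ ^ p‖ ≤ (p : ℝ)⁻¹ := by
      rw [norm_pow]
      exact (pow_le_of_le_one (norm_nonneg _) hδ1 hp.ne_zero).trans ih1
    have f5 : ‖r ^ (p ^ (j + 1)) * ((1 + Q) ^ p - 1 ^ p - Q ^ p)‖ ≤ (p : ℝ)⁻¹ := by
      rw [norm_mul, norm_pow]
      exact (mul_le_of_le_one_left (norm_nonneg _) (pow_le_one₀ (norm_nonneg _) hr)).trans f3'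
    constructor
    · have e4 : (1 + r * (w - 1)) ^ (p ^ (j + 1)) - 1 - r ^ (p ^ (j + 1)) *
          (w ^ (p ^ (j + 1)) - 1) =
          (((1 + (A + δ)) ^ p - 1 ^ p - (A + δ) ^ p) + ((A + δ) ^ p - A ^ p - δ ^ p)) +
            (δ ^ p - r ^ (p ^ (j + 1)) * ((1 + Q) ^ p - 1 ^ p - Q ^ p)) := by
        rw [e1, e2, one_pow]
        linear_combination -e3
      rw [e4]
      exact nadd (nadd f1' f2') (nsub' f4 f5)
    · have e5 : w ^ (p ^ (j + 1)) - 1 = ((1 + Q) ^ p - 1 ^ p - Q ^ p) + Q ^ p := by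
        rw [e2, one_pow]
        ring
      rw [e5]
      refine nadd (f3'.trans hi) ?_
      rw [norm_pow]
      exact pow_le_one₀ (norm_nonneg _) ih2

/-- `m - (p - 1) v ≥ 2` for `m ≥ 2`, `m ≠ p`. -/
theorem val2 (hp : p.Prime) (hp3 : 3 ≤ p) (m : ℕ) (hm : 2 ≤ m) (hmp : m ≠ p) :
    (p - 1) * padicValNat p m + 2 ≤ m := by
  have : Fact p.Prime := ⟨hp⟩
  have h1 : p ^ padicValNat p m ∣ m := pow_padicValNat_dvd
  obtain ⟨c, hc⟩ := h1
  have hc0 : 1 ≤ c := by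
    rcases Nat.eq_zero_or_pos c with h | h
    · rw [h, mul_zero] at hc
      omega
    · exact h
  generalize padicValNat p m = v at hc
  obtain ⟨q, rfl⟩ : ∃ q, p = q + 1 := ⟨p - 1, by omega⟩
  rw [Nat.add_sub_cancel]
  rcases Nat.lt_or_ge v 2 with hv | hv
  · have hv' : v = 0 ∨ v = 1 := by omega
    rcases hv' with rfl | rfl
    · omega
    · rw [pow_one] at hc
      have hc1 : 2 ≤ c := by
        rcases Nat.lt_or_ge c 2 with h | h
        · have : c = 1 := by omega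
          rw [this, mul_one] at hc
          exact absurd hc hmp
        · exact h
      have : (q + 1) * 2 ≤ (q + 1) * c := Nat.mul_le_mul_left _ hc1
      omega
  · have h2 : ∀ v : ℕ, q * (v + 2) + 2 ≤ (q + 1) ^ (v + 2) := by
      intro v
      induction v with
      | zero =>
        have h5 : 2 ≤ q := by omega
        have h6 : 2 * q ≤ q * q := Nat.mul_le_mul_right _ h5
        rw [Nat.zero_add]
        nlinarith
      | succ v ih =>
        rw [pow_succ (q + 1) (v + 2)]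
        have h3 : (q * (v + 2) + 2) * (q + 1) ≤ (q + 1) ^ (v + 2) * (q + 1) :=
          Nat.mul_le_mul_right _ ih
        refine le_trans ?_ h3
        nlinarith [Nat.zero_le (q * (v + 2) * q), Nat.zero_le (q * v)]
    obtain ⟨u, rfl⟩ : ∃ u, v = u + 2 := ⟨v - 2, by omega⟩
    have h3 := h2 u
    have h4 : (q + 1) ^ (u + 2) ≤ (q + 1) ^ (u + 2) * c := Nat.le_mul_of_pos_right _ hc0
    omega

end

theorem glb (thb : THBStmt) (wwn : WWNStmt) (_zkl : ZKLStmt) (_lgb : LgbStmt) : GlbStmt := by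
  intro p hp hp7 K _ _ _ hE Log hL k w r hw hr
  obtain ⟨t1, t2, t3, t4, -⟩ := thb p hp (by omega)
  have hp1 : (1 : ℝ) ≤ p := by exact_mod_cast hp.one_lt.le
  have hi : (p : ℝ)⁻¹ ≤ 1 := inv_le_one_of_one_le₀ hp1
  have hi0 : 0 < (p : ℝ)⁻¹ := inv_pos.2 (by exact_mod_cast hp.pos)
  have hpn := ZPK.H27.nrm_p hp K hE
  have hpK : (p : K) ≠ 0 := Nat.cast_ne_zero.2 hp.ne_zero
  have ti2 : (p : ℝ)⁻¹ ≤ th p ^ 2 := t4.le.trans (pow_le_pow_of_le_one t2.le t3.le (by norm_num))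
  have ti1 : (p : ℝ)⁻¹ ≤ th p :=
    t4.le.trans (pow_le_of_le_one t2.le t3.le (by norm_num))
  obtain ⟨-, -, w1, -⟩ := wwn p hp (by omega) K hE (k + 1) w (by omega) hw
  obtain ⟨it, -⟩ := iter hp hE (w := w) (r := r) w1.le hr k
  have hw1 : IsPrimitiveRoot (w ^ (p ^ k)) (p ^ 1) := by
    rw [pow_one]
    exact hw.pow (pow_pos hp.pos _) (by rw [pow_succ])
  obtain ⟨-, -, -, w2⟩ := wwn p hp (by omega) K hE 1 _ le_rfl hw1
  have hπ := w2 rfl
  obtain ⟨π, hπd⟩ : ∃ π : K, π = w ^ (p ^ k) - 1 := ⟨_, rfl⟩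
  rw [← hπd] at hπ it ⊢
  obtain ⟨A, hA⟩ : ∃ A : K, A = r ^ (p ^ k) * π := ⟨_, rfl⟩
  obtain ⟨x, hx⟩ : ∃ x : K, x = (1 + r * (w - 1)) ^ (p ^ k) - 1 := ⟨_, rfl⟩
  obtain ⟨δ, hδ⟩ : ∃ δ : K, δ = x - A := ⟨_, rfl⟩
  rw [← hx, ← hA, ← hδ] at it
  have hrk : ‖r ^ (p ^ k)‖ ≤ 1 := by rw [norm_pow]; exact pow_le_one₀ (norm_nonneg _) hr
  have hrk1 : ‖r ^ (p ^ (k + 1))‖ ≤ 1 := by rw [norm_pow]; exact pow_le_one₀ (norm_nonneg _) hr
  have hA1 : ‖A‖ ≤ th p := by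
    rw [hA, norm_mul, hπ]
    exact mul_le_of_le_one_left t2.le hrk
  have hxA : x = A + δ := by rw [hδ]; ring
  have hxn : ‖x‖ ≤ th p := by rw [hxA]; exact nadd hA1 (it.trans ti1)
  have hx1 : ‖x‖ < 1 := hxn.trans_lt t3
  -- the logarithm
  have hu0 : 1 + r * (w - 1) ≠ 0 := by
    intro h
    have h1 : ‖r * (w - 1)‖ < 1 := by
      rw [norm_mul]
      exact (mul_le_of_le_one_left (norm_nonneg _) hr).trans_lt w1
    have h2 : r * (w - 1) = -1 := by linear_combination h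
    rw [h2, norm_neg, norm_one] at h1
    exact lt_irrefl _ h1
  have hlog : (p : K) ^ k * Log (1 + r * (w - 1)) = Log (1 + x) := by
    have h1 := ZPK.H27.log_npow Log hL _ hu0 (p ^ k)
    have h2 : 1 + x = (1 + r * (w - 1)) ^ (p ^ k) := by rw [hx]; ring
    rw [h2, h1]
    push_cast
    rfl
  rw [hlog]
  -- the series
  have hpodd : (-1 : K) ^ (p - 1) = 1 := by
    have h1 : Even (p - 1) := hp.even_sub_one (by omega)
    exact h1.neg_one_pow
  have hser : ‖Log (1 + x) - x - x ^ p / (p : K)‖ ≤ th p ^ 2 := by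
    have h1 := hL.ser x hx1
    have h2 := (h1.sub (hasSum_ite_eq 0 x)).sub (hasSum_ite_eq (p - 1) (x ^ p / (p : K)))
    refine ZPK.H27.hs_le _ _ _ h2 (by positivity) ?_
    intro n
    by_cases hn0 : n = 0
    · subst hn0
      rw [if_pos rfl, if_neg (by have := hp.two_le; omega)]
      simp
      positivity
    · rw [if_neg hn0]
      by_cases hnp : n = p - 1
      · rw [if_pos hnp, hnp, hpodd]
        have h3 : p - 1 + 1 = p := by have := hp.two_le; omega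
        have h4 : ((p - 1 : ℕ) : K) + 1 = (p : K) := by
          have h5 : ((p - 1 + 1 : ℕ) : K) = (p : K) := by rw [h3]
          rw [← h5]
          push_cast
          ring
        rw [h3, h4, one_mul, sub_zero, sub_self, norm_zero]
        positivity
      · rw [if_neg hnp, sub_zero, sub_zero]
        have h3 : ((n : K) + 1) = ((n + 1 : ℕ) : K) := by push_cast; ring
        rw [h3, norm_div, norm_mul, norm_pow, norm_pow, norm_neg, norm_one, one_pow, one_mul]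
        have hN : 0 < ‖((n + 1 : ℕ) : K)‖ :=
          norm_pos_iff.2 (by exact_mod_cast (by omega : n + 1 ≠ 0))
        rw [div_le_iff₀ hN, ZPK.H27.nrm_val hp K hE (n + 1) (by omega), ← t1, ← pow_mul,
          ← pow_add]
        have h4 := val2 hp (by omega) (n + 1) (by omega) (by omega)
        calc ‖x‖ ^ (n + 1) ≤ th p ^ (n + 1) := pow_le_pow_left₀ (norm_nonneg _) hxn _
          _ ≤ th p ^ (2 + (p - 1) * padicValNat p (n + 1)) :=
            pow_le_pow_of_le_one t2.le t3.le (by omega)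
  -- `x ^ p / p`
  have hxp : ‖(x ^ p - A ^ p) / (p : K)‖ ≤ th p ^ 2 := by
    rw [norm_div, hpn, div_le_iff₀ hi0]
    have h1 := frob hp hE (a := A) (b := δ) (hA1.trans t3.le) (it.trans hi)
    have h2 : x ^ p - A ^ p = ((A + δ) ^ p - A ^ p - δ ^ p) + δ ^ p := by rw [hxA]; ring
    rw [h2]
    refine nadd ?_ ?_
    · refine h1.trans ?_
      rw [mul_comm]
      refine mul_le_mul_of_nonneg_right ?_ hi0.le
      calc ‖A‖ * ‖δ‖ ≤ 1 * (p : ℝ)⁻¹ :=
            mul_le_mul (hA1.trans t3.le) it (norm_nonneg _) zero_le_one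
        _ ≤ th p ^ 2 := by rw [one_mul]; exact ti2
    · rw [norm_pow]
      have h3 : ‖δ‖ ^ p ≤ ‖δ‖ ^ 2 :=
        pow_le_pow_of_le_one (norm_nonneg _) (it.trans hi) hp.two_le
      refine h3.trans ?_
      calc ‖δ‖ ^ 2 = ‖δ‖ * ‖δ‖ := by ring
        _ ≤ (p : ℝ)⁻¹ * (p : ℝ)⁻¹ := mul_le_mul it it (norm_nonneg _) hi0.le
        _ ≤ th p ^ 2 * (p : ℝ)⁻¹ := mul_le_mul_of_nonneg_right ti2 hi0.le
  have hπp : ‖π ^ p / (p : K) + π‖ ≤ th p ^ 2 := by
    have h1 := frob2 hp hE (y := π) (by rw [hπ]; exact t3.le)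
    have h2 : (1 + π) ^ p = 1 := by
      have h3 : 1 + π = w ^ (p ^ k) := by rw [hπd]; ring
      rw [h3]
      have h4 := hw1.pow_eq_one
      rwa [pow_one] at h4
    have h5 : π ^ p / (p : K) + π = -(((1 + π) ^ p - 1 - π ^ p - (p : K) * π) / (p : K)) := by
      rw [h2]
      field_simp
      ring
    rw [h5, norm_neg, norm_div, hpn, div_le_iff₀ hi0]
    rw [hπ] at h1
    rw [mul_comm (th p ^ 2)]
    exact h1
  have hAp : ‖A ^ p / (p : K) + r ^ (p ^ (k + 1)) * π‖ ≤ th p ^ 2 := by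
    have h1 : A ^ p / (p : K) + r ^ (p ^ (k + 1)) * π =
        r ^ (p ^ (k + 1)) * (π ^ p / (p : K) + π) := by
      rw [hA, mul_pow, ← pow_mul, ← pow_succ]
      ring
    rw [h1, norm_mul]
    exact (mul_le_of_le_one_left (norm_nonneg _) hrk1).trans hπp
  have hfin : Log (1 + x) - π * (r ^ (p ^ k) - r ^ (p ^ (k + 1))) =
      ((Log (1 + x) - x - x ^ p / (p : K)) + (x ^ p - A ^ p) / (p : K)) +
        ((A ^ p / (p : K) + r ^ (p ^ (k + 1)) * π) + δ) := by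
    rw [hδ, hA]
    ring
  rw [hfin]
  exact nadd (nadd hser hxp) (nadd hAp (it.trans ti2))

end Pool.Agent.ZPK.H41
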