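import Pool.Agent.ZPK.StmtsL
import Pool.Agent.Helper20_ZP3.GNR

/-!
GNU (squad ZPK): polynomials of Gauss norm at least 1 are small only near finitely many points,
with a uniform radius.
-/

set_option autoImplicit false

namespace Pool.Agent.ZPK.H41

open Polynomial Pool.Agent.ZPT Pool.Agent.ZP3

theorem glq {K : Type} [NormedField K] [IsUltrametricDist K] [IsAlgClosed K] {δ : ℝ}
    (h0 : 0 ≤ δ) (hd1 : δ ≤ 1) (n : ℕ) :
    ∀ P : K[X], P.natDegree = n → ∀ T : K, ‖T‖ ≤ 1 → (∀ r, P.eval r = 0 → δ ≤ ‖T - r‖) →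
      ∀ j, δ ^ n * ‖P.coeff j‖ ≤ ‖P.eval T‖ := by
  induction n with
  | zero =>
    intro P hP T _ _ j
    rw [eq_C_of_natDegree_eq_zero hP, coeff_C, eval_C, pow_zero, one_mul]
    split_ifs
    · exact le_refl _
    · rw [norm_zero]; exact norm_nonneg _
  | succ n ih =>
    intro P hP T hT hr j
    have hdeg : P.degree ≠ 0 := by
      intro h
      have := natDegree_eq_of_degree_eq_some (n := 0) (by simpa using h)
      omega
    obtain ⟨r, hroot⟩ := IsAlgClosed.exists_root P hdeg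
    obtain ⟨Q, hQ⟩ := dvd_iff_isRoot.mpr hroot
    have hP0 : P ≠ 0 := by
      intro h; rw [h, natDegree_zero] at hP; omega
    have hQ0 : Q ≠ 0 := by
      intro h; rw [h, mul_zero] at hQ; exact hP0 hQ
    have hQd : Q.natDegree = n := by
      have h1 := natDegree_mul (X_sub_C_ne_zero r) hQ0
      rw [← hQ, hP, natDegree_X_sub_C] at h1
      omega
    have hTr : δ ≤ ‖T - r‖ := hr r hroot
    have hrn : δ * ‖r‖ ≤ ‖T - r‖ := by
      by_cases h1 : ‖r‖ ≤ 1
      · exact (mul_le_of_le_one_right h0 h1).trans hTr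
      · have h1' : 1 < ‖r‖ := lt_of_not_ge h1
        have h2 : ‖r‖ ≤ max ‖T‖ ‖T - r‖ := by
          calc ‖r‖ = ‖T - (T - r)‖ := by rw [sub_sub_cancel]
            _ ≤ max ‖T‖ ‖T - r‖ := ZP3.H20.nsub _ _
        have h3 : ‖r‖ ≤ ‖T - r‖ := by
          rcases le_max_iff.1 h2 with h4 | h4
          · exact absurd (lt_of_lt_of_le h1' (h4.trans hT)) (lt_irrefl _)
          · exact h4
        exact (mul_le_of_le_one_left (norm_nonneg _) hd1).trans h3
    have hIH := ih Q hQd T hT (by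
      intro s hs
      apply hr
      rw [hQ, eval_mul, hs, mul_zero])
    have hev : ‖P.eval T‖ = ‖T - r‖ * ‖Q.eval T‖ := by
      rw [hQ, eval_mul, eval_sub, eval_X, eval_C, norm_mul]
    have hb : ∀ i, δ ^ (n + 1) * ‖r * Q.coeff i‖ ≤ ‖T - r‖ * ‖Q.eval T‖ := by
      intro i
      rw [norm_mul]
      have h5 : δ ^ (n + 1) * (‖r‖ * ‖Q.coeff i‖) = (δ * ‖r‖) * (δ ^ n * ‖Q.coeff i‖) := by ring
      rw [h5]
      exact mul_le_mul hrn (hIH i) (mul_nonneg (pow_nonneg h0 _) (norm_nonneg _)) (norm_nonneg _)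
    have hb2 : ∀ i, δ ^ (n + 1) * ‖Q.coeff i‖ ≤ ‖T - r‖ * ‖Q.eval T‖ := by
      intro i
      have h5 : δ ^ (n + 1) * ‖Q.coeff i‖ = δ * (δ ^ n * ‖Q.coeff i‖) := by ring
      rw [h5]
      exact mul_le_mul hTr (hIH i) (mul_nonneg (pow_nonneg h0 _) (norm_nonneg _)) (norm_nonneg _)
    have hmax : ∀ a b : K, δ ^ (n + 1) * ‖a‖ ≤ ‖T - r‖ * ‖Q.eval T‖ →
        δ ^ (n + 1) * ‖b‖ ≤ ‖T - r‖ * ‖Q.eval T‖ →
          δ ^ (n + 1) * ‖a - b‖ ≤ ‖T - r‖ * ‖Q.eval T‖ := by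
      intro a b ha hb
      rcases le_max_iff.1 (ZP3.H20.nsub a b) with h | h
      · exact (mul_le_mul_of_nonneg_left h (pow_nonneg h0 _)).trans ha
      · exact (mul_le_mul_of_nonneg_left h (pow_nonneg h0 _)).trans hb
    rw [hev, hQ, sub_mul, coeff_sub, coeff_C_mul]
    cases j with
    | zero =>
      rw [coeff_X_mul_zero, zero_sub, norm_neg]
      exact hb 0
    | succ j =>
      rw [coeff_X_mul]
      exact hmax _ _ (hb2 j) (hb (j + 1))

theorem gnu : GnuStmt := by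
  intro K _ _ _ N ρ hN hρ
  classical
  obtain ⟨i, hi⟩ := hN
  have hN0 : N ≠ 0 := by
    intro h
    rw [h, coeff_zero, norm_zero] at hi
    linarith
  have hm0 : 0 ≤ max ρ 0 := le_max_right _ _
  have hm1 : max ρ 0 < 1 := max_lt hρ one_pos
  have hmρ : ρ ≤ max ρ 0 := le_max_left _ _
  generalize max ρ 0 = m at hm0 hm1 hmρ
  have hn : (0 : ℝ) < (N.natDegree : ℝ) + 1 := by positivity
  obtain ⟨ε, hε⟩ : ∃ ε : ℝ, ε = (1 - m) / ((N.natDegree : ℝ) + 1) := ⟨_, rfl⟩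
  have hε0 : 0 < ε := by rw [hε]; exact div_pos (by linarith) hn
  have hεm : ε * ((N.natDegree : ℝ) + 1) = 1 - m := by rw [hε]; field_simp
  have hn0 : (0 : ℝ) ≤ (N.natDegree : ℝ) := Nat.cast_nonneg _
  have hε1 : ε ≤ 1 := by nlinarith
  refine ⟨N.roots.toFinset, 1 - ε, by linarith, ?_⟩
  intro T hT hev
  by_contra hcon
  have h1 : ∀ r, N.eval r = 0 → 1 - ε ≤ ‖T - r‖ := by
    intro r hr
    by_contra hlt
    apply hcon
    refine ⟨r, ?_, (lt_of_not_ge hlt).le⟩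
    rw [Multiset.mem_toFinset, mem_roots hN0]
    exact hr
  have h2 := glq (δ := 1 - ε) (by linarith) (by linarith) N.natDegree N rfl T hT h1 i
  have h3 := one_add_mul_le_pow (a := -ε) (by linarith) N.natDegree
  have h4 : (1 + -ε) = 1 - ε := by ring
  rw [h4] at h3
  have h5 : (1 - ε) ^ N.natDegree ≤ (1 - ε) ^ N.natDegree * ‖N.coeff i‖ :=
    le_mul_of_one_le_right (pow_nonneg (by linarith) _) hi
  nlinarith

end Pool.Agent.ZPK.H41
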